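import Mathlib
import Pool.Agent.Lib.P46005.Sing

/-!
# The boundary measure of hyperbolic branching Brownian motion at the critical rate

At branching rate `1/2` the limit of the normalised empirical measures is almost surely singular
with respect to arc length.
-/

open MeasureTheory ProbabilityTheory Filter
open scoped NNReal ENNReal Topology BoundedContinuousFunction

namespace Pool.Agent.Results.MP_46005c_pr.Main

open Pool.Agent.Lib.P46005

lemma mu_eq {E : Type} {B : ℝ≥0 → E → ℂ} (β t : ℝ) (ω : Om E) :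
    mu B t ω = (me β B t ω Set.univ)⁻¹ • me β B t ω := by
  unfold mu me
  have h0 : ENNReal.ofReal (Real.exp (-(β * t))) ≠ 0 := by
    rw [ne_eq, ENNReal.ofReal_eq_zero]
    exact not_le.2 (Real.exp_pos _)
  rw [Measure.smul_apply, smul_eq_mul, smul_smul,
    ENNReal.mul_inv (Or.inl h0) (Or.inl ENNReal.ofReal_ne_top)]
  congr 1
  rw [mul_comm (ENNReal.ofReal _)⁻¹, mul_assoc, ENNReal.inv_mul_cancel h0 ENNReal.ofReal_ne_top,
    mul_one]

/-- For hyperbolic branching Brownian motion with branching rate `1/2`, almost surely the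
normalised empirical measures converge weakly (along integer times) to a probability measure `ν`
carried by the unit circle; every weak limit of `μ_t` as `t → ∞` through the reals is equal to
`ν`; and `ν` is singular with respect to arc length, in particular not absolutely continuous. -/
theorem result (E : Type) [MeasurableSpace E] (Q : Measure E) [IsProbabilityMeasure Q]
    (B : ℝ≥0 → E → ℂ) (hB : IsHypBM B Q) :
    ∀ᵐ ω ∂(bbmLaw (1 / 2) Q), ∃ ν : Measure ℂ, IsProbabilityMeasure ν ∧
      ν (Metric.sphere (0 : ℂ) 1)ᶜ = 0 ∧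
      (∀ f : ℂ →ᵇ ℝ, Tendsto (fun n : ℕ => ∫ z, f z ∂(mu B n ω)) atTop (𝓝 (∫ z, f z ∂ν))) ∧
      (∀ ν' : Measure ℂ, IsProbabilityMeasure ν' →
        (∀ f : ℂ →ᵇ ℝ, Tendsto (fun t : ℝ => ∫ z, f z ∂(mu B t ω)) atTop (𝓝 (∫ z, f z ∂ν'))) →
        ν' = ν) ∧
      ν ⟂ₘ arcLength ∧ ¬ ν ≪ arcLength := by
  have hβ : (0 : ℝ) < 1 / 2 := by norm_num
  filter_upwards [ae_G0 hβ hB.joint hB.mem (cls_harm hB) (cls_y hB),
    ae_mass_pos hβ hB.joint hB.mem (cls_harm hB) (cls_y hB), ae_sing hB] with ω h1 h2 h3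
  have hl := Minf_isLim h1
  set μ := Minf (1 / 2) B Q ω with hμ
  have hμt : μ Set.univ ≠ ⊤ := measure_ne_top _ _
  have hprob : IsProbabilityMeasure ((μ Set.univ)⁻¹ • μ) := by
    refine ⟨?_⟩
    rw [Measure.smul_apply, smul_eq_mul, ENNReal.inv_mul_cancel h2 hμt]
  have hsing : ((μ Set.univ)⁻¹ • μ) ⟂ₘ arcLength := by
    obtain ⟨s, hs, e1, e2⟩ := h3
    refine ⟨s, hs, ?_, e2⟩
    rw [Measure.smul_apply, e1, smul_zero]
  have hconv : ∀ f : ℂ →ᵇ ℝ, Tendsto (fun n : ℕ => ∫ z, f z ∂(mu B n ω)) atTop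
      (𝓝 (∫ z, f z ∂((μ Set.univ)⁻¹ • μ))) := by
    intro f
    have t1 := hl.real (f := fun _ => 1) continuousOn_const
    simp only [integral_const, smul_eq_mul, mul_one] at t1
    have t2 := hl.real f.continuous.continuousOn
    have hne : μ.real Set.univ ≠ 0 := by
      unfold Measure.real
      rw [ne_eq, ENNReal.toReal_eq_zero_iff]
      push Not
      exact ⟨h2, hμt⟩
    have t3 := (t1.inv₀ hne).mul t2
    have e1 : ∫ z, f z ∂((μ Set.univ)⁻¹ • μ) = (μ.real Set.univ)⁻¹ * ∫ z, f z ∂μ := by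
      rw [integral_smul_measure, ENNReal.toReal_inv, smul_eq_mul]
      rfl
    rw [e1]
    refine t3.congr fun n => ?_
    rw [mu_eq (1 / 2), integral_smul_measure, ENNReal.toReal_inv, smul_eq_mul]
    rfl
  refine ⟨(μ Set.univ)⁻¹ • μ, hprob, ?_, hconv, ?_, hsing, ?_⟩
  · rw [Measure.smul_apply, Minf_sphere, smul_zero]
  · intro ν' hν' hlim
    refine ext_of_forall_integral_eq_of_IsFiniteMeasure fun f => ?_
    have t1 := (hlim f).comp (tendsto_natCast_atTop_atTop (R := ℝ))
    exact tendsto_nhds_unique t1 (hconv f)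
  · intro hac
    obtain ⟨s, hs, e1, e2⟩ := hsing
    have e3 := hac e2
    have e4 := measure_union_null e1 e3
    rw [Set.union_compl_self, hprob.measure_univ] at e4
    exact one_ne_zero e4

end Pool.Agent.Results.MP_46005c_pr.Main
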